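import Pool.Agent.Lib.MP_a2d0bb_al.FG.Ord

/-!
The swindle and the extraction of commutators from two generators.
-/

set_option autoImplicit false

open Equiv Set

namespace Pool.Agent.Lib.MP_a2d0bb_al.FG

section

variable {x : Perm ℝ} {V B : Set ℝ}

theorem pw (x : Perm ℝ) (n : ℕ) (t : ℝ) : x ((x ^ n) t) = (x ^ (n + 1)) t := by
  rw [pow_succ', Perm.mul_apply]

theorem pw_add (x : Perm ℝ) (m n : ℕ) (t : ℝ) : (x ^ m) ((x ^ n) t) = (x ^ (m + n)) t := by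
  rw [pow_add, Perm.mul_apply]

theorem pow_in (h1 : ∀ z ∈ V, x z ∈ V) (n : ℕ) {z : ℝ} (hz : z ∈ V) : (x ^ n) z ∈ V := by
  induction n with
  | zero => exact hz
  | succ n ih => rw [← pw]; exact h1 _ ih

theorem slot_eq (h1 : ∀ z ∈ V, x z ∈ V) (hB : ∀ z ∈ B, z ∈ V ∧ x⁻¹ z ∉ V) {n m : ℕ} {t t' : ℝ}
    (ht : t ∈ B) (ht' : t' ∈ B) (h : (x ^ n) t = (x ^ m) t') : n = m := by
  have key : ∀ {n m : ℕ} {t t' : ℝ}, t ∈ B → t' ∈ B → (x ^ n) t = (x ^ m) t' → ¬ n < m := by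
    intro n m t t' ht ht' h hlt
    obtain ⟨k, rfl⟩ := Nat.exists_eq_add_of_lt hlt
    rw [add_assoc, ← pw_add, ← pw] at h
    refine (hB t ht).2 ?_
    rw [(x ^ n).injective h, ia]
    exact pow_in h1 k (hB _ ht').1
  exact le_antisymm (not_lt.1 (key ht' ht h.symm)) (not_lt.1 (key ht ht' h))

theorem swindle (hx : x ∈ Aut) (h1 : ∀ z ∈ V, x z ∈ V) (hB : ∀ z ∈ B, z ∈ V ∧ x⁻¹ z ∉ V)
    (A : ℕ → Perm ℝ) (hA : ∀ n, A n ∈ Aut ∧ A n ∈ Sup B) :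
    ∃ Φ ∈ Aut, (∀ n, ∀ t ∈ B, Φ ((x ^ n) t) = (x ^ n) (A n t)) ∧
      ∀ z, (∀ n, ∀ t ∈ B, (x ^ n) t ≠ z) → Φ z = z := by
  obtain ⟨Φ, h0, h2, h3⟩ := glue (U := fun n : ℕ => (x ^ n) '' B)
    (F := fun n => x ^ n * A n * (x ^ n)⁻¹)
    (by
      rintro n m _ ⟨t, ht, rfl⟩ ⟨t', ht', h⟩
      exact slot_eq h1 hB ht ht' h.symm)
    (fun n => sup_conj (hA n).2 fun t ht => ⟨t, ht, rfl⟩)
    (fun n => mul_mem (mul_mem (pow_mem hx n) (hA n).1) (inv_mem (pow_mem hx n)))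
  refine ⟨Φ, h0, fun n t ht => ?_, fun z hz => h3 z fun n ⟨t, ht, h⟩ => hz n t ht h⟩
  rw [h2 n _ ⟨t, ht, rfl⟩, Perm.mul_apply, Perm.mul_apply, ia]

end

theorem perf {I : Type*} (a b b' a' : I → ℝ) (h : ∀ i, a i < b i ∧ b i < b' i ∧ b' i < a' i)
    (hD : Dj fun i => Ioo (a i) (a' i)) :
    ∃ τ ∈ Aut, τ ∈ Sup (⋃ i, Ioo (a i) (a' i)) ∧ ∀ c ∈ Aut, c ∈ Sup (⋃ i, Icc (b i) (b' i)) →
      ∃ C ∈ Aut, C ∈ Sup (⋃ i, Ioo (a i) (a' i)) ∧ c = C * τ * C⁻¹ * τ⁻¹ := by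
  choose F F0 F1 F2 F3 using fun i => bump (h i).1
    (show b i < (b' i + a' i) / 2 by linarith [h i]) (show _ < a' i by linarith [h i])
  obtain ⟨τ, t0, t1, t2⟩ := glue hD F1 F0
  refine ⟨τ, t0, fun z hz => t2 z fun i hi => hz (mem_iUnion.2 ⟨i, hi⟩), fun c c0 c1 => ?_⟩
  have h1 : ∀ z ∈ ⋃ i, Ico (b i) (a' i), τ z ∈ ⋃ i, Ico (b i) (a' i) := by
    simp only [mem_iUnion]
    rintro z ⟨i, hi⟩
    have hz : z ∈ Ioo (a i) (a' i) := ⟨(h i).1.trans_le hi.1, hi.2⟩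
    rw [t1 i z hz]
    exact ⟨i, hi.1.trans (F3 i z), (sup_map (F1 i) hz).2⟩
  have hB : ∀ z ∈ ⋃ i, Icc (b i) (b' i), z ∈ (⋃ i, Ico (b i) (a' i)) ∧
      τ⁻¹ z ∉ ⋃ i, Ico (b i) (a' i) := by
    simp only [mem_iUnion]
    rintro z ⟨i, hi⟩
    refine ⟨⟨i, hi.1, hi.2.trans_lt (h i).2.2⟩, ?_⟩
    rintro ⟨j, hj⟩
    have hz : τ⁻¹ z ∈ Ioo (a j) (a' j) := ⟨(h j).1.trans_le hj.1, hj.2⟩
    have e := t1 j _ hz
    rw [ai] at e
    obtain rfl := hD i j z ⟨(h i).1.trans_le hi.1, hi.2.trans_lt (h i).2.2⟩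
      (e ▸ sup_map (F1 j) hz)
    have := (le_iff (F0 i)).2 hj.1
    rw [← e, F2] at this
    linarith [hi.2, h i]
  obtain ⟨C, C0, C1, C2⟩ := swindle t0 h1 hB (fun _ => c) fun _ => ⟨c0, c1⟩
  refine ⟨C, C0, fun z hz => C2 z fun n t ht e => hz ?_, ?_⟩
  · obtain ⟨i, hi⟩ := mem_iUnion.1 (pow_in h1 n (hB t ht).1)
    exact mem_iUnion.2 ⟨i, e ▸ ⟨(h i).1.trans_le hi.1, hi.2⟩⟩
  have key : C = c * (τ * C * τ⁻¹) := by
    refine Equiv.ext fun z => ?_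
    simp only [Perm.mul_apply]
    by_cases hz : ∃ n, ∃ t ∈ ⋃ i, Icc (b i) (b' i), (τ ^ n) t = z
    · obtain ⟨n, t, ht, rfl⟩ := hz
      cases n with
      | zero =>
        have e1 : C (τ⁻¹ t) = τ⁻¹ t :=
          C2 _ fun n t' ht' e => (hB t ht).2 (e ▸ pow_in h1 n (hB t' ht').1)
        have e2 : C t = c t := C1 0 t ht
        change C t = c (τ (C (τ⁻¹ t)))
        rw [e1, e2, ai]
      | succ n =>
        have e1 : τ⁻¹ ((τ ^ (n + 1)) t) = (τ ^ n) t := by rw [← pw, ia]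
        rw [C1 _ t ht, e1, C1 n t ht, pw]
        exact (c1 _ fun h' =>
          Nat.succ_ne_zero n (slot_eq h1 hB (sup_map c1 ht) h' (m := 0) rfl)).symm
    · have hz' : ∀ n, ∀ t ∈ ⋃ i, Icc (b i) (b' i), (τ ^ n) t ≠ z :=
        fun n t ht e => hz ⟨n, t, ht, e⟩
      rw [C2 z hz', C2 _ fun n t ht e => hz' (n + 1) t ht (by rw [← pw, e, ai]), ai,
        c1 z fun h' => hz' 0 z h' rfl]
  calc c = c * (τ * C * τ⁻¹) * τ * C⁻¹ * τ⁻¹ := by group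
    _ = _ := by rw [← key]

theorem sidon {a b i j d : ℕ} (hd : 0 < d) (h1 : d + 2 ^ i = 2 ^ a) (h2 : d + 2 ^ j = 2 ^ b) :
    i = j := by
  have key : ∀ {a b i j : ℕ}, d + 2 ^ i = 2 ^ a → d + 2 ^ j = 2 ^ b → ¬ i < j := by
    intro a b i j h1 h2 h
    have ha : i < a := (Nat.pow_lt_pow_iff_right one_lt_two).1 (by omega)
    have hb : j < b := (Nat.pow_lt_pow_iff_right one_lt_two).1 (by omega)
    have e1 : 2 ^ (i + 1) ∣ d := (Nat.dvd_add_left (pow_dvd_pow 2 h)).1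
      (h2 ▸ pow_dvd_pow 2 (by omega))
    have e2 : 2 ^ (i + 1) ∣ 2 ^ i := (Nat.dvd_add_right e1).1 (h1 ▸ pow_dvd_pow 2 ha)
    have := (Nat.pow_dvd_pow_iff_le_right one_lt_two).1 e2
    omega
  exact le_antisymm (not_lt.1 (key h2 h1)) (not_lt.1 (key h1 h2))

theorem core (f x : Perm ℝ) (hx : x ∈ Aut) {V Q B : Set ℝ} (h1 : ∀ z ∈ V, x z ∈ V)
    (hB : ∀ z ∈ B, z ∈ V ∧ x⁻¹ z ∉ V)
    (h2 : ∀ z ∈ V, f z ∉ V ∧ f (f z) ∉ V ∧ x (f (f z)) = f (x z))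
    (h3 : ∀ z, (x ^ 3) z ∉ V → z ∈ Q) (h4 : ∀ z ∈ Q, z ∉ V)
    (h5 : ∀ t ∈ Q, ∀ t' ∈ Q, f (f t) ∉ V ∧ x (f (f t)) ≠ f (x t'))
    (b : ℕ → Perm ℝ) (hb : ∀ i, b i ∈ Aut ∧ b i ∈ Sup B) :
    ∃ g ∈ Aut, (∀ z ∉ V, g z = x z) ∧ ∀ i j, i ≠ j →
      b i * b j * (b i)⁻¹ * (b j)⁻¹ ∈ Subgroup.closure ({f, g} : Set (Perm ℝ)) := by
  have hinj : Function.Injective fun i : ℕ => 2 ^ (i + 2) := fun i j h => by
    simpa using Nat.pow_right_injective le_rfl h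
  obtain ⟨β, β1, β2⟩ : ∃ β : ℕ → Perm ℝ, (∀ i, β (2 ^ (i + 2)) = b i) ∧
      ∀ n, (¬ ∃ i, 2 ^ (i + 2) = n) → β n = 1 :=
    ⟨Function.extend (fun i : ℕ => 2 ^ (i + 2)) b 1, hinj.extend_apply _ _,
      fun n hn => Function.extend_apply' _ _ _ hn⟩
  have hβ : ∀ n, β n ∈ Aut ∧ β n ∈ Sup B := fun n => by
    by_cases hn : ∃ i, 2 ^ (i + 2) = n
    · obtain ⟨i, rfl⟩ := hn
      rw [β1]; exact hb i
    · rw [β2 n hn]; exact ⟨one_mem _, one_mem _⟩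
  obtain ⟨A, A0, A1⟩ : ∃ A : ℕ → Perm ℝ, A 0 = 1 ∧ ∀ n, A (n + 1) = A n * (β n)⁻¹ :=
    ⟨fun n => Nat.rec 1 (fun n a => a * (β n)⁻¹) n, rfl, fun _ => rfl⟩
  have hA : ∀ n, A n ∈ Aut ∧ A n ∈ Sup B := fun n => by
    induction n with
    | zero => rw [A0]; exact ⟨one_mem _, one_mem _⟩
    | succ n ih =>
      rw [A1]; exact ⟨mul_mem ih.1 (inv_mem (hβ n).1), mul_mem ih.2 (inv_mem (hβ n).2)⟩
  obtain ⟨Φ, Φ0, Φ1, Φ2⟩ := swindle hx h1 hB A hA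
  have ΦV : Φ ∈ Sup V := fun z hz => Φ2 z fun n t ht e => hz (e ▸ pow_in h1 n (hB t ht).1)
  have ΦB : ∀ t ∈ B, Φ t = t := fun t ht => by simpa [A0] using Φ1 0 t ht
  have gx : ∀ z ∉ V, (Φ * x * Φ⁻¹) z = x z := fun z hz => by
    rw [Perm.mul_apply, Perm.mul_apply, inv_mem ΦV z hz]
    by_cases h : x z ∈ B
    · exact ΦB _ h
    refine Φ2 _ fun n t ht e => ?_
    cases n with
    | zero => exact h (e ▸ ht)
    | succ n => exact hz (x.injective ((pw x n t).trans e) ▸ pow_in h1 n (hB t ht).1)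
  refine ⟨Φ * x * Φ⁻¹, mul_mem (mul_mem Φ0 hx) (inv_mem Φ0), gx, fun i j hij => ?_⟩
  set K := Subgroup.closure ({f, Φ * x * Φ⁻¹} : Set (Perm ℝ)) with hK
  let K' : Subgroup (Perm ℝ) := K.comap (MulAut.conj Φ).toMonoidHom
  have mK : ∀ y, y ∈ K' ↔ Φ * y * Φ⁻¹ ∈ K := fun _ => Iff.rfl
  obtain ⟨u, hu⟩ : ∃ u, u = x⁻¹ * (Φ⁻¹ * f * Φ)⁻¹ * x * (Φ⁻¹ * f * Φ) * (Φ⁻¹ * f * Φ) := ⟨_, rfl⟩
  have xK : x ∈ K' := Subgroup.subset_closure (k := {f, Φ * x * Φ⁻¹}) (by simp)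
  have uK : u ∈ K' := by
    have : Φ⁻¹ * f * Φ ∈ K' := (mK _).2 (by
      rw [show Φ * (Φ⁻¹ * f * Φ) * Φ⁻¹ = f by group]
      exact Subgroup.subset_closure (by simp))
    rw [hu]
    exact mul_mem (mul_mem (mul_mem (mul_mem (inv_mem xK) (inv_mem this)) xK) this) this
  have hu' : u = x⁻¹ * Φ⁻¹ * f⁻¹ * (Φ * x * Φ⁻¹) * f * f * Φ := by rw [hu]; group
  have uV : ∀ z ∈ V, u z = x⁻¹ (Φ⁻¹ (x (Φ z))) := fun z hz => by
    have := h2 _ (sup_map ΦV hz)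
    rw [hu']
    simp only [Perm.mul_apply (g := Φ), Perm.mul_apply (g := f), Perm.mul_apply (g := Φ * x * Φ⁻¹),
      Perm.mul_apply (g := f⁻¹), Perm.mul_apply (f := x⁻¹)]
    rw [gx _ this.2.1, this.2.2, ia]
  have u1 : ∀ n, ∀ t ∈ B, u ((x ^ n) t) = (x ^ n) (β n t) := fun n t ht => by
    have e : A n t = A (n + 1) (β n t) := by rw [A1, Perm.mul_apply, ia]
    rw [uV _ (pow_in h1 n (hB t ht).1), Φ1 n t ht, pw, e, ← Φ1 _ _ (sup_map (hβ n).2 ht), ia,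
      ← pw, ia]
  have u2 : ∀ z ∈ V, (∀ n, ∀ t ∈ B, (x ^ n) t ≠ z) → u z = z := fun z hz h => by
    have e : Φ (x z) = x z := Φ2 _ fun n t ht e => by
      cases n with
      | zero => exact (hB t ht).2 (by rw [show t = x z from e, ia]; exact hz)
      | succ n => exact h n t ht (x.injective ((pw x n t).trans e))
    rw [uV z hz, Φ2 z h, ← e, ia, ia]
  have uB : ∀ t ∈ B, u t = t := fun t ht => by
    simpa [β2 0 (by simp)] using u1 0 t ht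
  have uQ : ∀ t ∈ Q, u t ∉ Q := fun t ht ht' => by
    have e : Φ * x * Φ⁻¹ * f * f * Φ = f * (Φ * x * Φ⁻¹) * Φ * u := by rw [hu]; group
    have e1 : (Φ * x * Φ⁻¹) (f (f (Φ t))) = f ((Φ * x * Φ⁻¹) (Φ (u t))) :=
      congrArg (fun y : Perm ℝ => y t) e
    rw [ΦV t (h4 t ht), ΦV _ (h4 _ ht'), gx _ (h5 t ht t ht).1, gx _ (h4 _ ht')] at e1
    exact (h5 t ht _ ht').2 e1
  let E : ℕ → Set ℝ := fun i => {z | ∃ d, 0 < d ∧ (∃ a, d + 2 ^ (i + 2) = 2 ^ (a + 2)) ∧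
    ∃ t ∈ B, (x ^ d) t = z}
  have EV : ∀ i, ∀ z ∈ E i, z ∈ V := by
    rintro i _ ⟨d, -, -, t, ht, rfl⟩
    exact pow_in h1 d (hB t ht).1
  have EB : ∀ i, ∀ z ∈ E i, z ∉ B := by
    rintro i _ ⟨d, hd, -, t, ht, rfl⟩ h
    exact hd.ne' (slot_eq h1 hB ht h (m := 0) rfl)
  have hJ : ∀ i, (b i)⁻¹ * ((x ^ 2 ^ (i + 2))⁻¹ * u * x ^ 2 ^ (i + 2)) ∈ Sup (Q ∪ E i) := by
    intro i z hz
    have h4i : ∀ i : ℕ, 4 ≤ 2 ^ (i + 2) := fun i => by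
      have := Nat.one_le_two_pow (n := i)
      rw [pow_add]
      omega
    have z3 : ∀ k, 3 ≤ k → (x ^ k) z ∈ V := fun k hk => by
      obtain ⟨k, rfl⟩ := Nat.exists_eq_add_of_le' hk
      rw [← pw_add]
      exact pow_in h1 k (by_contra fun h => hz (Or.inl (h3 z h)))
    simp only [Perm.mul_apply]
    by_cases hzB : z ∈ B
    · rw [u1 _ z hzB, ia, β1, ia]
    suffices u ((x ^ 2 ^ (i + 2)) z) = (x ^ 2 ^ (i + 2)) z by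
      rw [this, ia, inv_mem (hb i).2 z hzB]
    by_cases hs : ∀ n, ∀ t ∈ B, (x ^ n) t ≠ (x ^ 2 ^ (i + 2)) z
    · exact u2 _ (z3 _ (by linarith [h4i i])) hs
    push Not at hs
    obtain ⟨m, t, ht, e⟩ := hs
    by_cases hm : ∃ a, 2 ^ (a + 2) = m
    swap
    · rw [← e, u1 m t ht, β2 m hm]; rfl
    exfalso
    obtain ⟨a, rfl⟩ := hm
    rcases lt_trichotomy a i with hai | rfl | hai
    · have h6 : 2 ^ (a + 2 + 1) ≤ 2 ^ (i + 2) := Nat.pow_le_pow_right two_pos (by omega)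
      rw [pow_succ] at h6
      obtain ⟨k, hk⟩ : ∃ k, 2 ^ (i + 2) = 2 ^ (a + 2) + (k + 1) ∧ 3 ≤ k :=
        ⟨2 ^ (i + 2) - 2 ^ (a + 2) - 1, by have := h4i a; omega, by have := h4i a; omega⟩
      rw [hk.1, ← pw_add, ← pw] at e
      refine (hB t ht).2 ?_
      rw [(x ^ 2 ^ (a + 2)).injective e, ia]
      exact z3 k hk.2
    · exact hzB ((x ^ 2 ^ (a + 2)).injective e ▸ ht)
    · have h6 : 2 ^ (i + 2) < 2 ^ (a + 2) := Nat.pow_lt_pow_right one_lt_two (by omega)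
      obtain ⟨d, hd⟩ := Nat.exists_eq_add_of_lt h6
      refine hz (Or.inr ⟨d + 1, Nat.succ_pos d, ⟨a, by omega⟩, t, ht, ?_⟩)
      rw [hd, add_assoc, ← pw_add] at e
      exact (x ^ 2 ^ (i + 2)).injective e
  have JK : ∀ i, (x ^ 2 ^ (i + 2))⁻¹ * u * x ^ 2 ^ (i + 2) ∈ K' := fun i =>
    mul_mem (mul_mem (inv_mem (pow_mem xK _)) uK) (pow_mem xK _)
  obtain ⟨J, hJ1, hJ2⟩ : ∃ J ∈ Sup (Q ∪ E i), b i * J ∈ K' :=
    ⟨_, hJ i, by simpa only [mul_inv_cancel_left] using JK i⟩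
  obtain ⟨J', hJ3, hJ4⟩ : ∃ J' ∈ Sup (u '' Q ∪ E j), b j * J' ∈ K' := by
    refine ⟨_, sup_conj (e := u) (hJ j) ?_, ?_⟩
    · rintro z (hz | ⟨d, hd, ha, t, ht, rfl⟩)
      · exact Or.inl ⟨z, hz, rfl⟩
      · exact Or.inr ⟨d, hd, ha, _, sup_map (hβ d).2 ht, (u1 d t ht).symm⟩
    · have e : u * b j * u⁻¹ = b j := by simpa using sup_cong (e' := 1) (hb j).2 uB
      have := mul_mem (mul_mem uK (JK j)) (inv_mem uK)
      rw [← e]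
      convert this using 1
      rw [e]
      calc _ = u * b j * u⁻¹ * (u * ((b j)⁻¹ * ((x ^ 2 ^ (j + 2))⁻¹ * u * x ^ 2 ^ (j + 2))) * u⁻¹) := by
            rw [e]
        _ = _ := by group
  have c1 : Commute J (b j) := sup_comm hJ1 (hb j).2 (by
    rintro z (hz | hz) h
    · exact h4 z hz (hB z h).1
    · exact EB i z hz h)
  have c2 : Commute J' (b i) := sup_comm hJ3 (hb i).2 (by
    rintro _ (⟨z, hz, rfl⟩ | hz) h
    · exact h4 z hz (u.injective (uB _ h) ▸ (hB _ h).1)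
    · exact EB j _ hz h)
  have c3 : Commute J J' := sup_comm hJ1 hJ3 (by
    rintro z (hz | hz) (⟨t, ht, rfl⟩ | hz')
    · exact uQ t ht hz
    · exact h4 z hz (EV j z hz')
    · obtain ⟨d, -, -, s, hs, e⟩ := hz
      have h7 := sup_map (inv_mem (hβ d).2) hs
      have h8 := u1 d _ h7
      rw [ai, e] at h8
      exact h4 t ht (u.injective h8 ▸ pow_in h1 d (hB _ h7).1)
    · obtain ⟨d, hd, ⟨a, ha⟩, s, hs, rfl⟩ := hz
      obtain ⟨d', -, ⟨a', ha'⟩, s', hs', e⟩ := hz'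
      obtain rfl := slot_eq h1 hB hs' hs e
      exact hij (by have := sidon hd ha ha'; omega))
  have key : b i * b j * (b i)⁻¹ * (b j)⁻¹ = b i * J * (b j * J') * (b i * J)⁻¹ * (b j * J')⁻¹ := by
    calc _ = b i * b j * (J' * (b i)⁻¹) * J'⁻¹ * (b j)⁻¹ := by rw [c2.inv_right.eq]; group
      _ = b i * (b j * J) * J' * J⁻¹ * (b i)⁻¹ * J'⁻¹ * (b j)⁻¹ := by
        rw [mul_assoc _ J', c3.symm.inv_right.eq]; group
      _ = _ := by rw [← c1.eq]; group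
  have hc : b i * b j * (b i)⁻¹ * (b j)⁻¹ ∈ K' :=
    key ▸ mul_mem (mul_mem (mul_mem hJ2 hJ4) (inv_mem hJ2)) (inv_mem hJ4)
  have hs : b i * b j * (b i)⁻¹ * (b j)⁻¹ ∈ Sup B :=
    mul_mem (mul_mem (mul_mem (hb i).2 (hb j).2) (inv_mem (hb i).2)) (inv_mem (hb j).2)
  rw [mK, sup_cong (e' := 1) hs ΦB] at hc
  simpa using hc

end Pool.Agent.Lib.MP_a2d0bb_al.FG
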