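import Pool.Agent.Lib.MP_a2d0bb_al.FG.Main

/-!
The assembly, and the necessity of moved points near both ends.
-/

set_option autoImplicit false

open Equiv Set

namespace Pool.Agent.Lib.MP_a2d0bb_al.FG

theorem extract (f x : Perm ℝ) (hf : f ∈ Aut) (hx : x ∈ Aut) {I : Type*} (a b b' a' : I → ℝ)
    (h : ∀ i, a i < b i ∧ b i < b' i ∧ b' i < a' i) (hD : Dj fun i => Ioo (a i) (a' i))
    {V Q : Set ℝ} (h1 : ∀ z ∈ V, x z ∈ V)
    (hB : ∀ z ∈ ⋃ i, Ioo (a i) (a' i), z ∈ V ∧ x⁻¹ z ∉ V)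
    (h2 : ∀ z ∈ V, f z ∉ V ∧ f (f z) ∉ V ∧ x (f (f z)) = f (x z))
    (h3 : ∀ z, (x ^ 3) z ∉ V → z ∈ Q) (h4 : ∀ z ∈ Q, z ∉ V)
    (h5 : ∀ t ∈ Q, ∀ t' ∈ Q, f (f t) ∉ V ∧ x (f (f t)) ≠ f (x t'))
    (h6 : ∀ y, x (x y) ∉ V → x (x (f y)) ∈ ⋃ i, Icc (b i) (b' i))
    (c : ℕ → Perm ℝ) (hc : ∀ i, c i ∈ Aut ∧ c i ∈ Sup Vᶜ) :
    ∃ g ∈ Aut, ∀ i, c i ∈ Subgroup.closure ({f, g} : Set (Perm ℝ)) := by
  obtain ⟨τ, t0, t1, t2⟩ := perf a b b' a' h hD
  have hw : x * x * f * (x * x)⁻¹ ∈ Aut :=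
    mul_mem (mul_mem (mul_mem hx hx) hf) (inv_mem (mul_mem hx hx))
  choose C C0 C1 C2 using fun i => t2 _ (mul_mem (mul_mem hw (hc i).1) (inv_mem hw))
    (sup_conj (hc i).2 fun z hz => h6 _ (show (x * x) ((x * x)⁻¹ z) ∉ V by rw [ai]; exact hz))
  obtain ⟨g, g0, g1, g2⟩ := core f x hx h1 hB h2 h3 h4 h5 (fun n => Nat.rec τ (fun n _ => C n) n)
    (fun n => by cases n; exacts [⟨t0, t1⟩, ⟨C0 _, C1 _⟩])
  refine ⟨g, g0, fun i => ?_⟩
  have k1 : C i * τ * (C i)⁻¹ * τ⁻¹ ∈ _ := g2 (i + 1) 0 (Nat.succ_ne_zero i)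
  have fK : f ∈ Subgroup.closure ({f, g} : Set (Perm ℝ)) := Subgroup.subset_closure (by simp)
  have gK : g ∈ Subgroup.closure ({f, g} : Set (Perm ℝ)) := Subgroup.subset_closure (by simp)
  have wK := mul_mem (mul_mem (mul_mem gK gK) fK) (inv_mem (mul_mem gK gK))
  rw [← C2, sup_cong (e' := g * g * f * (g * g)⁻¹) (hc i).2 fun z hz => ?_] at k1
  · simpa [mul_assoc] using mul_mem (mul_mem (inv_mem wK) k1) wK
  obtain ⟨y, rfl⟩ := (x * x).surjective z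
  have n1 : ∀ z, x z ∉ V → z ∉ V := fun z h h' => h (h1 z h')
  have e1 : ∀ z, x z ∉ V → (g * g) z = (x * x) z := fun z h => by
    rw [Perm.mul_apply, g1 z (n1 z h), g1 _ h, Perm.mul_apply]
  obtain ⟨j, hj⟩ := mem_iUnion.1 (h6 y hz)
  have e2 := (hB _ (mem_iUnion.2 ⟨j, (h j).1.trans_le hj.1, hj.2.trans_lt (h j).2.2⟩)).2
  rw [ia] at e2
  rw [Perm.mul_apply, ia, ← e1 y (n1 _ hz), Perm.mul_apply (g := (g * g)⁻¹), ia]
  exact (e1 _ e2).symm

variable {f : Perm ℝ} {s : ℕ → Perm ℝ} {r0 q0 q1 r1 w0 w1 o1 : ℤ → ℝ}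

theorem Blocks.ex_x (D : Blocks f s r0 q0 q1 r1 w0 w1 o1) (hf : f ∈ Aut) (v d : ℤ → ℝ)
    (hd : ∀ k, 0 < d k ∧ w0 k < v k ∧ v k + 7 * d k < w1 k) :
    ∃ x ∈ Aut, ∀ k, x (v k) = v k + 3 * d k ∧ x (v k + 7 * d k) = v k + 4 * d k ∧
      (∀ z, v k ≤ z → z ≤ v k + 7 * d k → x (f (f z)) = f (x z)) ∧
      r1 k < x (q1 k) ∧ x (q0 (k + 1)) < r0 (k + 1) ∧ x (x (q1 k)) = v k + d k ∧
      x (x (r1 k)) = v k + 2 * d k ∧ x (x (r0 (k + 1))) = v k + 5 * d k ∧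
      x (x (q0 (k + 1))) = v k + 6 * d k := by
  have o := D.ord hf
  choose φ h0 h1 h2 h3 h4 using D.gp
  have hφ : ∀ k, φ k ∈ Aut := fun k => by
    rcases h0 k with h | h <;> rw [h]
    exacts [hf, inv_mem hf]
  choose X X0 X1 X2 using fun k => block (hφ k) (q := (q0 k + q1 k) / 2) (q1 := q1 k) (r1 := r1 k)
    (r0 := r0 (k + 1)) (q0 := q0 (k + 1)) (q' := (q0 (k + 1) + q1 (k + 1)) / 2) (hd k).1 rfl
    (by linarith [o k]) (o k).2.2.1
    ((h1 k).trans (inv_mem (hφ k) (inv_mem (hφ k) (hd k).2.1)))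
    ((hd k).2.2.trans ((h3 k).trans (hφ k (hd k).2.1)))
    (by linarith [hφ k (hφ k (hd k).2.2), h4 k, o k]) (o _).1 (by linarith [o (k + 1)])
  have mono' : ∀ {j k : ℤ}, j < k → r0 (j + 1) ≤ r0 k := fun h => D.mono hf h
  obtain ⟨x, x0, x1, -⟩ := glue (U := fun k => Ioo ((q0 k + q1 k) / 2)
    ((q0 (k + 1) + q1 (k + 1)) / 2)) (fun j k z hj hk => by
      by_contra h
      rcases lt_or_gt_of_ne h with h | h
      · rcases (show j + 1 = k ∨ j + 1 < k by omega) with rfl | h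
        · linarith [hj.2, hk.1]
        · linarith [hj.2, hk.1, mono' h, o (j + 1), o k]
      · rcases (show k + 1 = j ∨ k + 1 < j by omega) with rfl | h
        · linarith [hj.1, hk.2]
        · linarith [hj.1, hk.2, mono' h, o (k + 1), o j]) X1 X0
  refine ⟨x, x0, fun k => ?_⟩
  have m : ∀ z, q1 k ≤ z → z ≤ q0 (k + 1) → x z = X k z ∧ x (x z) = X k (X k z) := by
    intro z z1 z2
    have hz : z ∈ Ioo ((q0 k + q1 k) / 2) ((q0 (k + 1) + q1 (k + 1)) / 2) :=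
      ⟨by linarith [o k], by linarith [o (k + 1)]⟩
    rw [x1 k z hz, x1 k _ (sup_map (X1 k) hz)]
    exact ⟨rfl, rfl⟩
  have ok := o k
  have ok' := o (k + 1)
  have dk := hd k
  obtain ⟨a1, a2, a3, a4, a5, a6, a7, a8, a9⟩ := X2 k
  refine ⟨?_, ?_, fun z z1 z2 => ?_, ?_, ?_, ?_, ?_, ?_, ?_⟩
  · rw [(m _ (by linarith) (by linarith)).1, a1]
  · rw [(m _ (by linarith) (by linarith)).1, a2]
  · have := ((D.gp k).hull hf).2.2.2.1 z (by linarith) (by linarith)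
    rw [(m _ (by linarith) (by linarith)).1, (m z (by linarith) (by linarith)).1]
    have a := a3 z z1 z2
    rcases h0 k with h | h <;> rw [h] at a
    exacts [a.1, a.2]
  · rw [(m _ (by linarith) (by linarith)).1]; exact a4
  · rw [(m _ (by linarith) (by linarith)).1]; exact a5
  · rw [(m _ (by linarith) (by linarith)).2, a6]
  · rw [(m _ (by linarith) (by linarith)).2, a7]
  · rw [(m _ (by linarith) (by linarith)).2, a8]
  · rw [(m _ (by linarith) (by linarith)).2, a9]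

theorem Blocks.gen (D : Blocks f s r0 q0 q1 r1 w0 w1 o1) (hf : f ∈ Aut) (v d : ℤ → ℝ)
    (hd : ∀ k, 0 < d k ∧ w0 k < v k ∧ v k + 7 * d k < w1 k) (c : ℕ → Perm ℝ)
    (hc : ∀ i, c i ∈ Aut ∧ c i ∈ Sup (⋃ k, Ioo (v k) (v k + 7 * d k))ᶜ) :
    ∃ g ∈ Aut, ∀ i, c i ∈ Subgroup.closure ({f, g} : Set (Perm ℝ)) := by
  have o := D.ord hf
  obtain ⟨x, hx, X⟩ := D.ex_x hf v d hd
  have nV : ∀ k z, r0 k < z → z < r0 (k + 1) → z ≤ v k ∨ v k + 7 * d k ≤ z →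
      z ∉ ⋃ k, Ioo (v k) (v k + 7 * d k) := fun k z z1 z2 z3 hz => by
    obtain ⟨j, hj⟩ := mem_iUnion.1 hz
    obtain rfl : j = k := D.same hf (by linarith [hj.1, o j, hd j]) (by linarith [hj.2, o j, hd j])
    rcases z3 with h | h <;> linarith [hj.1, hj.2]
  have xV : ∀ k z, z ∈ Ioo (v k) (v k + 7 * d k) → x z ∈ Ioo (v k + 3 * d k) (v k + 4 * d k) :=
    fun k z hz => ⟨(X k).1 ▸ hx hz.1, (X k).2.1 ▸ hx hz.2⟩
  have xx : ∀ {y z}, y ≤ z → x (x y) ≤ x (x z) := fun h => (le_iff hx).2 ((le_iff hx).2 h)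
  have xQ : ∀ y, x (x y) ∉ ⋃ k, Ioo (v k) (v k + 7 * d k) → ∃ k, y ∈ Ioo (q0 k) (q1 k) := by
    intro y hy
    have key : ∀ k, q1 k ≤ y → ¬ y ≤ q0 (k + 1) := fun k y1 y2 => hy (mem_iUnion.2 ⟨k,
      by linarith [xx y1, X k, hd k], by linarith [xx y2, X k, hd k]⟩)
    obtain ⟨k, k1, k2⟩ := D.loc hf y
    refine ⟨k, not_le.1 fun h => ?_, not_le.1 fun h => key k h (by linarith [o (k + 1)])⟩
    obtain ⟨k, rfl⟩ : ∃ j, k = j + 1 := ⟨k - 1, by ring⟩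
    exact key k (by linarith [o k]) h
  have QQ : ∀ k t, x t ∈ Ioo (q0 (k + 1)) (q1 (k + 1)) → q0 (k + 1) < t ∧ t < q1 (k + 1) :=
    fun k t ht => ⟨(lt_iff hx).1 (by linarith [X k, ht.1, o (k + 1)]),
      (lt_iff hx).1 (by linarith [X (k + 1), ht.2, o (k + 1)])⟩
  have sh : ∀ {t : ℝ}, (∃ k, t ∈ Ioo (q0 k) (q1 k)) → ∃ k, t ∈ Ioo (q0 (k + 1)) (q1 (k + 1)) :=
    fun ⟨k, hk⟩ => ⟨k - 1, by rwa [sub_add_cancel]⟩
  refine extract f x hf hx (I := ℤ × Bool)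
    (fun i => v i.1 + (bif i.2 then 4 else 0) * d i.1)
    (fun i => v i.1 + (bif i.2 then 5 else 1) * d i.1)
    (fun i => v i.1 + (bif i.2 then 6 else 2) * d i.1)
    (fun i => v i.1 + (bif i.2 then 7 else 3) * d i.1) ?_ ?_
    (V := ⋃ k, Ioo (v k) (v k + 7 * d k)) (Q := {z | ∃ k, x z ∈ Ioo (q0 k) (q1 k)})
    ?_ ?_ ?_ (fun z hz => xQ _ hz) ?_ ?_ ?_ c hc
  · rintro ⟨k, _ | _⟩ <;> simp only [cond_true, cond_false] <;> refine ⟨?_, ?_, ?_⟩ <;>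
      linarith [hd k]
  · rintro ⟨j, _ | _⟩ ⟨k, _ | _⟩ z ⟨j1, j2⟩ ⟨k1, k2⟩ <;>
      simp only [cond_true, cond_false] at j1 j2 k1 k2 <;>
      obtain rfl : j = k := D.same hf (by linarith [o j, o k, hd j, hd k])
        (by linarith [o j, o k, hd j, hd k]) <;>
      first | rfl | linarith [hd j]
  · intro z hz
    obtain ⟨k, hk⟩ := mem_iUnion.1 hz
    exact mem_iUnion.2 ⟨k, by linarith [(xV k z hk).1, hd k], by linarith [(xV k z hk).2, hd k]⟩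
  · intro z hz
    obtain ⟨⟨k, i⟩, k1, k2⟩ := mem_iUnion.1 hz
    have h1 : v k < z ∧ z < v k + 7 * d k ∧ (z < v k + 3 * d k ∨ v k + 4 * d k < z) := by
      cases i <;> simp only [cond_true, cond_false] at k1 k2
      · exact ⟨by linarith, by linarith [hd k], Or.inl k2⟩
      · exact ⟨by linarith [hd k], k2, Or.inr k1⟩
    refine ⟨mem_iUnion.2 ⟨k, h1.1, h1.2.1⟩, fun h => ?_⟩
    obtain ⟨j, hj⟩ := mem_iUnion.1 h
    have h2 := xV j _ hj
    rw [ai] at h2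
    obtain rfl : j = k := D.same hf (by linarith [h2.1, o j, o k, hd j, hd k])
      (by linarith [h2.2, o j, o k, hd j, hd k])
    rcases h1.2.2 with h | h <;> linarith [h2.1, h2.2]
  · intro z hz
    obtain ⟨k, k1, k2⟩ := mem_iUnion.1 hz
    obtain ⟨-, -, -, a1, a2⟩ := (D.gp k).hull hf
    have z1 : w0 k ≤ z := by linarith [hd k]
    have z2 : z ≤ w1 k := by linarith [hd k]
    have a := a1 z z1 z2
    refine ⟨nV k _ (by linarith [o k]) (by linarith [o k]) ?_,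
      nV k _ (by linarith [o k]) (by linarith [o k]) ?_, (X k).2.2.1 z k1.le k2.le⟩ <;>
    rcases a2 with a2 | a2
    · exact Or.inr (by linarith [a2 z z1 z2, hd k])
    · exact Or.inl (by linarith [a2 z z1 z2, hd k])
    · exact Or.inr (by linarith [a2 z z1 z2, hd k])
    · exact Or.inl (by linarith [a2 z z1 z2, hd k])
  · intro z hz
    obtain ⟨k, hk⟩ := sh hz
    have := QQ k z hk
    exact nV (k + 1) z (by linarith [o (k + 1)]) (by linarith [o (k + 1)])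
      (Or.inl (by linarith [o (k + 1), hd (k + 1)]))
  · intro t ht t' ⟨j, hj⟩
    obtain ⟨k, hk⟩ := sh ht
    obtain ⟨t1, t2⟩ := QQ k t hk
    obtain ⟨-, -, -, a1, a2⟩ := (D.gq (k + 1)).hull hf
    have a := a1 t t1.le t2.le
    have b := ((D.gq j).hull hf).2.2.2.1 _ hj.1.le hj.2.le
    have ok := o k
    have ok' := o (k + 1)
    refine ⟨nV (k + 1) _ (by linarith) (by linarith) (Or.inl (by linarith [hd (k + 1)])),
      fun e => ?_⟩
    rcases a2 with a2 | a2 <;> have a3 := a2 t t1.le t2.le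
    · have c1 := hx (show q1 (k + 1) < f (f t) by linarith)
      have c2 := hx a.2.2.2.1
      have c3 : x (r1 (k + 1)) < v (k + 1) := (lt_iff hx).1 (by linarith [X (k + 1), hd (k + 1)])
      have c4 := X (k + 1)
      obtain rfl : j = k + 1 := D.same hf (by linarith [hd (k + 1)]) (by linarith [o j])
      linarith
    · have c1 := hx (show f (f t) < q0 (k + 1) by linarith)
      have c2 := hx a.2.2.1
      have c3 : v k + 7 * d k < x (r0 (k + 1)) := (lt_iff hx).1 (by linarith [X k, hd k])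
      have c4 := X k
      obtain rfl : j = k := D.same hf (by linarith) (by linarith [o j, hd k])
      linarith [hd j]
  · intro y hy
    obtain ⟨k, y1, y2⟩ := sh (xQ y hy)
    obtain ⟨-, -, -, a1, a2⟩ := (D.gq (k + 1)).hull hf
    have a := a1 y y1.le y2.le
    rcases a2 with a2 | a2 <;> have a3 := (a2 y y1.le y2.le).1
    · refine mem_iUnion.2 ⟨(k + 1, false), ?_, ?_⟩ <;> simp only [cond_false]
      · linarith [xx a3.le, X (k + 1)]
      · linarith [xx a.2.1.le, X (k + 1)]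
    · refine mem_iUnion.2 ⟨(k, true), ?_, ?_⟩ <;> simp only [cond_true]
      · linarith [xx a.1.le, X k]
      · linarith [xx a3.le, X k]

theorem suff (hf : f ∈ Aut) (hr : ∀ R, ∃ c, R < c ∧ f c ≠ c) (hl : ∀ R, ∃ c, c < R ∧ f c ≠ c)
    (s : ℕ → Perm ℝ) (hs : ∀ n, s n ∈ Aut) :
    ∃ g ∈ Aut, ∀ n, s n ∈ Subgroup.closure ({f, g} : Set (Perm ℝ)) := by
  obtain ⟨r0, q0, q1, r1, w0, w1, o1, D⟩ := ex_blocks hf hr hl s hs
  have o := D.ord hf
  have hd : ∀ k, 0 < (w1 k - w0 k) / 9 ∧ w0 k < w0 k + (w1 k - w0 k) / 9 ∧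
      w0 k + (w1 k - w0 k) / 9 + 7 * ((w1 k - w0 k) / 9) < w1 k :=
    fun k => ⟨by linarith [o k], by linarith [o k], by linarith [o k]⟩
  obtain ⟨A, hA⟩ : ∃ A : Set (Perm ℝ), ∀ a, a ∈ A ↔ a ∈ Aut ∧ a ∈ Sup (⋃ k, Ioo
    (w0 k + (w1 k - w0 k) / 9) (w0 k + (w1 k - w0 k) / 9 + 7 * ((w1 k - w0 k) / 9)))ᶜ :=
    ⟨_, fun _ => Iff.rfl⟩
  let H : Subgroup (Perm ℝ) :=
    { carrier := {h | ∃ T ⊆ A, T.Countable ∧ h ∈ Subgroup.closure (insert f T)}
      one_mem' := ⟨∅, empty_subset _, countable_empty, one_mem _⟩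
      mul_mem' := fun ⟨T, a1, a2, a3⟩ ⟨T', b1, b2, b3⟩ => ⟨T ∪ T', union_subset a1 b1, a2.union b2,
        mul_mem (Subgroup.closure_mono (insert_subset_insert subset_union_left) a3)
          (Subgroup.closure_mono (insert_subset_insert subset_union_right) b3)⟩
      inv_mem' := fun ⟨T, a1, a2, a3⟩ => ⟨T, a1, a2, inv_mem a3⟩ }
  choose T T1 T2 T3 using D.frag hf hs _ _ (fun k => ⟨(hd k).2.1, by linarith [hd k], (hd k).2.2⟩) H
    ⟨∅, empty_subset _, countable_empty, Subgroup.subset_closure (mem_insert _ _)⟩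
    fun a a1 a2 => ⟨{a}, singleton_subset_iff.2 ((hA a).2 ⟨a1, a2⟩), countable_singleton a,
      Subgroup.subset_closure (by simp)⟩
  obtain ⟨c, hc⟩ := ((countable_iUnion T2).insert 1).exists_eq_range (insert_nonempty _ _)
  obtain ⟨g, g0, g1⟩ := D.gen hf _ _ hd c fun i => (hA _).1 (by
    rcases (show c i ∈ insert 1 (⋃ n, T n) from hc ▸ mem_range_self i) with h | h
    · rw [h, hA]; exact ⟨one_mem _, one_mem _⟩
    · obtain ⟨n, hn⟩ := mem_iUnion.1 h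
      exact T1 n hn)
  refine ⟨g, g0, fun n => (Subgroup.closure_le _).2 (insert_subset ?_ fun a ha => ?_) (T3 n)⟩
  · exact Subgroup.subset_closure (by simp)
  · obtain ⟨i, rfl⟩ : a ∈ range c := hc ▸ mem_insert_of_mem _ (mem_iUnion.2 ⟨n, ha⟩)
    exact g1 i

open Filter in
theorem nec {g a b : Perm ℝ} (l : Filter ℝ) (hl : ∀ h ∈ Aut, Tendsto h l l) (hf : f ∈ Aut)
    (hg : g ∈ Aut) (h : ∀ᶠ t in l, f t = t) (ha : a ∈ Subgroup.closure ({f, g} : Set (Perm ℝ)))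
    (hb : b ∈ Subgroup.closure ({f, g} : Set (Perm ℝ))) : ∀ᶠ t in l, a (b t) = b (a t) := by
  let H : Subgroup (Perm ℝ) :=
    { carrier := {h | h ∈ Aut ∧ ∃ n : ℤ, ∀ᶠ t in l, h t = (g ^ n) t}
      one_mem' := ⟨one_mem _, 0, by simp⟩
      mul_mem' := fun {u v} ⟨a1, m, a2⟩ ⟨b1, n, b2⟩ => ⟨mul_mem a1 b1, m + n,
        (((hl v b1).eventually a2).and b2).mono fun t ht => by
          rw [Perm.mul_apply, ht.1, ht.2, zpow_add, Perm.mul_apply]⟩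
      inv_mem' := fun {u} ⟨a1, m, a2⟩ => ⟨inv_mem a1, -m,
        ((hl _ (inv_mem a1)).eventually a2).mono fun t ht => by
          rw [ai] at ht
          rw [zpow_neg, eq_comm, Perm.inv_eq_iff_eq, ← ht]⟩ }
  have hH : Subgroup.closure ({f, g} : Set (Perm ℝ)) ≤ H := (Subgroup.closure_le _).2
    (insert_subset ⟨hf, 0, h⟩ (singleton_subset_iff.2 ⟨hg, 1, by simp⟩))
  obtain ⟨a1, m, a2⟩ := hH ha
  obtain ⟨b1, n, b2⟩ := hH hb
  refine ((((hl b b1).eventually a2).and ((hl a a1).eventually b2)).and (a2.and b2)).mono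
    fun t ht => ?_
  rw [ht.1.1, ht.1.2, ht.2.1, ht.2.2, ← Perm.mul_apply, ← Perm.mul_apply, ← zpow_add, ← zpow_add,
    add_comm]

end Pool.Agent.Lib.MP_a2d0bb_al.FG
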