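import Pool.Agent.Lib.MP_a2d0bb_al.FG.Core

/-!
Choice of the blocks, fragmentation and the assembly.
-/

set_option autoImplicit false

open Equiv Set

namespace Pool.Agent.Lib.MP_a2d0bb_al.FG

/-- The interval `[a, b]` is moved off itself, and its near images lie in `(lo, hi)`. -/
def Gad (f : Perm ℝ) (lo a b hi : ℝ) : Prop :=
  ∃ φ, (φ = f ∨ φ = f⁻¹) ∧ lo < φ⁻¹ (φ⁻¹ a) ∧ a < b ∧ b < φ a ∧ φ (φ b) < hi

variable {f : Perm ℝ}

theorem gad_at (hf : f ∈ Aut) {c : ℝ} (hc : f c ≠ c) :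
    ∃ φ, (φ = f ∨ φ = f⁻¹) ∧ φ ∈ Aut ∧ c < φ c := by
  rcases lt_or_gt_of_ne hc with h | h
  · exact ⟨f⁻¹, Or.inr rfl, inv_mem hf, (lt_inv hf).2 h⟩
  · exact ⟨f, Or.inl rfl, hf, h⟩

theorem gad_right (hf : f ∈ Aut) (h : ∀ R, ∃ c, R < c ∧ f c ≠ c) (R : ℝ) :
    ∃ a b hi, Gad f R a b hi := by
  obtain ⟨c, h1, h2⟩ := h (max (f (f R)) (f⁻¹ (f⁻¹ R)))
  obtain ⟨φ, h3, h4, h5⟩ := gad_at hf h2
  refine ⟨c, (c + φ c) / 2, _, φ, h3, ?_, by linarith, by linarith, lt_add_one _⟩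
  rw [lt_inv h4, lt_inv h4]
  rcases h3 with rfl | rfl
  exacts [(le_max_left _ _).trans_lt h1, (le_max_right _ _).trans_lt h1]

theorem gad_left (hf : f ∈ Aut) (h : ∀ R, ∃ c, c < R ∧ f c ≠ c) (R : ℝ) :
    ∃ lo a b, Gad f lo a b R := by
  obtain ⟨c, h1, h2⟩ := h (min (f (f (f R))) (f⁻¹ (f⁻¹ (f⁻¹ R))))
  obtain ⟨φ, h3, h4, h5⟩ := gad_at hf h2
  refine ⟨_, c, (c + φ c) / 2, φ, h3, sub_one_lt _, by linarith, by linarith, ?_⟩
  refine (h4 (h4 (show _ < φ c by linarith))).trans ?_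
  rw [← lt_inv h4, ← lt_inv h4, ← lt_inv h4]
  rcases h3 with rfl | rfl
  exacts [h1.trans_le (min_le_right _ _), h1.trans_le (min_le_left _ _)]

theorem Gad.hull (hf : f ∈ Aut) {lo a b hi : ℝ} (h : Gad f lo a b hi) :
    lo < a ∧ a < b ∧ b < hi ∧ (∀ z, a ≤ z → z ≤ b → lo < f z ∧ f z < hi ∧ lo < f (f z) ∧
      f (f z) < hi ∧ lo < f⁻¹ z ∧ f⁻¹ z < hi) ∧
    ((∀ z, a ≤ z → z ≤ b → b < f z ∧ f z < f (f z)) ∨
      ∀ z, a ≤ z → z ≤ b → f z < a ∧ f (f z) < f z) := by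
  obtain ⟨φ, h0, h1, h2, h3, h4⟩ := h
  have hφ : φ ∈ Aut := by
    rcases h0 with rfl | rfl
    exacts [hf, inv_mem hf]
  have hi' := inv_mem hφ
  have key : ∀ z, a ≤ z → z ≤ b → b < φ z ∧ φ z < φ (φ z) ∧ φ (φ z) < hi ∧
      φ⁻¹ z < a ∧ φ⁻¹ (φ⁻¹ z) < φ⁻¹ z ∧ lo < φ⁻¹ (φ⁻¹ z) := fun z z1 z2 => by
    have e1 : b < φ z := h3.trans_le ((le_iff hφ).2 z1)
    have e2 : φ⁻¹ z < a := (inv_lt hφ).2 (z2.trans_lt h3)
    exact ⟨e1, hφ (z2.trans_lt e1), ((le_iff hφ).2 ((le_iff hφ).2 z2)).trans_lt h4, e2,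
      hi' (e2.trans_le z1), h1.trans_le ((le_iff hi').2 ((le_iff hi').2 z1))⟩
  have k := key a le_rfl h2.le
  refine ⟨by linarith, h2, by linarith, fun z z1 z2 => ?_, ?_⟩
  · have := key z z1 z2
    rcases h0 with rfl | rfl
    · refine ⟨?_, ?_, ?_, ?_, ?_, ?_⟩ <;> linarith
    · rw [inv_inv] at this
      refine ⟨?_, ?_, ?_, ?_, ?_, ?_⟩ <;> linarith
  · rcases h0 with rfl | rfl
    · exact Or.inl fun z z1 z2 => ⟨(key z z1 z2).1, (key z z1 z2).2.1⟩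
    · exact Or.inr fun z z1 z2 => ⟨(key z z1 z2).2.2.2.1, (key z z1 z2).2.2.2.2.1⟩

theorem ex_seq {α : Type*} (a₀ : α) (R : ℕ → α → α → Prop) (h1 : ∀ n a, ∃ b, R n a b)
    (h2 : ∀ n b, ∃ a, R n a b) : ∃ γ : ℤ → α, ∀ k, R k.natAbs (γ k) (γ (k + 1)) := by
  choose F hF using h1
  choose G hG using h2
  let ρ : ℕ → α := fun n => Nat.rec a₀ (fun n a => F n a) n
  let τ : ℕ → α := fun n => Nat.rec a₀ (fun n a => G (n + 1) a) n
  refine ⟨fun k => Int.rec ρ (fun n => τ (n + 1)) k, fun k => ?_⟩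
  rcases k with n | (_ | n)
  · exact hF n (ρ n)
  · exact hG 1 a₀
  · exact hG (n + 2) (τ (n + 1))

/-- The blocks. -/
structure Blocks (f : Perm ℝ) (s : ℕ → Perm ℝ) (r0 q0 q1 r1 w0 w1 o1 : ℤ → ℝ) : Prop where
  gq : ∀ k, Gad f (r0 k) (q0 k) (q1 k) (r1 k)
  gp : ∀ k, Gad f (r1 k) (w0 k) (w1 k) (o1 k)
  gap : ∀ k, o1 k + 1 ≤ r0 (k + 1)
  far : ∀ k, ∀ n ≤ k.natAbs, s n (o1 k) < r0 (k + 1) ∧ o1 k < s n (r0 (k + 1))

theorem ex_blocks (hf : f ∈ Aut) (hr : ∀ R, ∃ c, R < c ∧ f c ≠ c) (hl : ∀ R, ∃ c, c < R ∧ f c ≠ c)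
    (s : ℕ → Perm ℝ) (hs : ∀ n, s n ∈ Aut) :
    ∃ r0 q0 q1 r1 w0 w1 o1, Blocks f s r0 q0 q1 r1 w0 w1 o1 := by
  let α := {p : Fin 7 → ℝ // Gad f (p 0) (p 1) (p 2) (p 3) ∧ Gad f (p 3) (p 4) (p 5) (p 6)}
  have eR : ∀ R, ∃ p : α, p.1 0 = R := fun R => by
    obtain ⟨a, b, c, h1⟩ := gad_right hf hr R
    obtain ⟨a', b', c', h2⟩ := gad_right hf hr c
    exact ⟨⟨![R, a, b, c, a', b', c'], h1, h2⟩, rfl⟩
  have eL : ∀ R, ∃ p : α, p.1 6 = R := fun R => by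
    obtain ⟨c, a', b', h2⟩ := gad_left hf hl R
    obtain ⟨c', a, b, h1⟩ := gad_left hf hl c
    exact ⟨⟨![c', a, b, c, a', b', R], h1, h2⟩, rfl⟩
  obtain ⟨γ, h⟩ := ex_seq (eR 0).choose (fun n (p p' : α) => p.1 6 + 1 ≤ p'.1 0 ∧
      ∀ i ≤ n, s i (p.1 6) < p'.1 0 ∧ p.1 6 < s i (p'.1 0))
    (fun n p => by
      obtain ⟨M, hM⟩ := Finite.exists_le fun i : Fin (n + 1) =>
        max (p.1 6) (max (s i (p.1 6)) ((s i)⁻¹ (p.1 6)))
      obtain ⟨p', e⟩ := eR (M + 1)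
      simp only [max_le_iff] at hM
      refine ⟨p', by linarith [(hM 0).1], fun i hi => ?_⟩
      have := (hM ⟨i, Nat.lt_succ_of_le hi⟩).2
      exact ⟨by linarith [this.1], (inv_lt (hs i)).1 (by linarith [this.2])⟩)
    (fun n p' => by
      obtain ⟨M, hM⟩ := Finite.exists_ge fun i : Fin (n + 1) =>
        min (p'.1 0) (min (s i (p'.1 0)) ((s i)⁻¹ (p'.1 0)))
      obtain ⟨p, e⟩ := eL (M - 1)
      simp only [le_min_iff] at hM
      refine ⟨p, by linarith [(hM 0).1], fun i hi => ?_⟩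
      have := (hM ⟨i, Nat.lt_succ_of_le hi⟩).2
      exact ⟨(lt_inv (hs i)).1 (by linarith [this.2]), by linarith [this.1]⟩)
  exact ⟨_, _, _, _, _, _, _, fun k => (γ k).2.1, fun k => (γ k).2.2, fun k => (h k).1,
    fun k => (h k).2⟩

variable {s : ℕ → Perm ℝ} {r0 q0 q1 r1 w0 w1 o1 : ℤ → ℝ}

theorem Blocks.ord (D : Blocks f s r0 q0 q1 r1 w0 w1 o1) (hf : f ∈ Aut) (k : ℤ) :
    r0 k < q0 k ∧ q0 k < q1 k ∧ q1 k < r1 k ∧ r1 k < w0 k ∧ w0 k < w1 k ∧ w1 k < o1 k ∧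
      o1 k + 1 ≤ r0 (k + 1) :=
  ⟨((D.gq k).hull hf).1, ((D.gq k).hull hf).2.1, ((D.gq k).hull hf).2.2.1,
    ((D.gp k).hull hf).1, ((D.gp k).hull hf).2.1, ((D.gp k).hull hf).2.2.1, D.gap k⟩

theorem Blocks.mono (D : Blocks f s r0 q0 q1 r1 w0 w1 o1) (hf : f ∈ Aut) : Monotone r0 :=
  monotone_int_of_le_succ fun k => by linarith [D.ord hf k]

theorem Blocks.same (D : Blocks f s r0 q0 q1 r1 w0 w1 o1) (hf : f ∈ Aut) {j k : ℤ}
    (h1 : r0 j < r0 (k + 1)) (h2 : r0 k < r0 (j + 1)) : j = k := by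
  have := (D.mono hf).reflect_lt h1
  have := (D.mono hf).reflect_lt h2
  omega

theorem Blocks.loc (D : Blocks f s r0 q0 q1 r1 w0 w1 o1) (hf : f ∈ Aut) (z : ℝ) :
    ∃ k, r0 k ≤ z ∧ z < r0 (k + 1) := by
  have key : ∀ (n : ℕ) k, r0 k + n ≤ r0 (k + n) := fun n k => by
    induction n with
    | zero => simp
    | succ n ih =>
      push_cast
      rw [← add_assoc k]
      linarith [D.ord hf (k + n)]
  obtain ⟨n, hn⟩ := exists_nat_gt |z - r0 0|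
  rw [abs_lt] at hn
  obtain ⟨k, h1, h2⟩ := Int.exists_greatest_of_bdd (P := fun k => r0 k ≤ z)
    ⟨n, fun k hk => ((D.mono hf).reflect_lt (by
      have := key n 0
      rw [zero_add] at this
      linarith)).le⟩
    ⟨-n, by
      have := key n (-n)
      rw [neg_add_cancel] at this
      linarith⟩
  exact ⟨k, h1, not_le.1 fun h => by have := h2 _ h; omega⟩

/-- Fragmentation. -/
theorem Blocks.frag (D : Blocks f s r0 q0 q1 r1 w0 w1 o1) (hf : f ∈ Aut) (hs : ∀ n, s n ∈ Aut)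
    (v0 v1 : ℤ → ℝ) (hv : ∀ k, w0 k < v0 k ∧ v0 k < v1 k ∧ v1 k < w1 k) (H : Subgroup (Perm ℝ))
    (hfH : f ∈ H) (hH : ∀ a ∈ Aut, a ∈ Sup (⋃ k, Ioo (v0 k) (v1 k))ᶜ → a ∈ H) (n : ℕ) :
    s n ∈ H := by
  have o := D.ord hf
  have hH' : ∀ a ∈ Aut, a ∈ Sup (⋃ k, Ioo (w0 k) (w1 k)) → a ∈ H := fun a ha h => by
    have := hH _ (mul_mem (mul_mem (inv_mem hf) ha) (inv_mem (inv_mem hf)))
      (sup_conj (e := f⁻¹) h fun z hz hz' => by
        obtain ⟨j, hj⟩ := mem_iUnion.1 hz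
        obtain ⟨k, hk⟩ := mem_iUnion.1 hz'
        obtain ⟨-, -, -, h1, h2⟩ := (D.gp k).hull hf
        have z1 : w0 k ≤ f⁻¹ z := by linarith [hk.1, hv k]
        have z2 : f⁻¹ z ≤ w1 k := by linarith [hk.2, hv k]
        have h3 := h1 _ z1 z2
        rw [ai] at h3
        obtain rfl : j = k := D.same hf (by linarith [hj.1, o j, o k]) (by linarith [hj.2, o j, o k])
        rcases h2 with h2 | h2 <;> have h4 := (h2 _ z1 z2).1 <;> rw [ai] at h4 <;>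
          linarith [hj.1, hj.2])
    simpa [mul_assoc] using mul_mem (mul_mem hfH this) (inv_mem hfH)
  choose F F0 F1 F2 F3 using fun k => bump (show v1 k < (v1 k + w1 k) / 2 by linarith [hv k])
    (show _ < (w0 (k + 1) + v0 (k + 1)) / 2 by linarith [hv k, hv (k + 1), o k, o (k + 1)])
    (show _ < v0 (k + 1) by linarith [hv (k + 1)])
  choose G G0 G1 G2 G3 using fun k => bump (show w0 k < (w0 k + v0 k) / 2 by linarith [hv k])
    (show _ < (v1 k + w1 k) / 2 by linarith [hv k]) (show _ < w1 k by linarith [hv k])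
  have mono' : ∀ {j k : ℤ}, j < k → r0 (j + 1) ≤ r0 k := fun h => D.mono hf h
  obtain ⟨e, e0, e1, e2⟩ := glue (U := fun k => Ioo (v1 k) (v0 (k + 1))) (fun j k z hj hk => by
    by_contra h
    rcases lt_or_gt_of_ne h with h | h
    · rcases (show j + 1 = k ∨ j + 1 < k by omega) with rfl | h
      · linarith [hj.2, hk.1, hv (j + 1)]
      · linarith [hj.2, hk.1, mono' h, hv (j + 1), hv k, o (j + 1), o k]
    · rcases (show k + 1 = j ∨ k + 1 < j by omega) with rfl | h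
      · linarith [hj.1, hk.2, hv (k + 1)]
      · linarith [hj.1, hk.2, mono' h, hv (k + 1), hv j, o (k + 1), o j]) F1 F0
  obtain ⟨e', e0', e1', e2'⟩ := glue (U := fun k => Ioo (w0 k) (w1 k)) (fun j k z hj hk =>
    D.same hf (by linarith [hj.1, hk.2, o j, o k]) (by linarith [hj.2, hk.1, o j, o k])) G1 G0
  have up : ∀ {U : ℤ → Set ℝ} {F : ℤ → Perm ℝ} {e : Perm ℝ}, (∀ i z, z ≤ F i z) →
      (∀ i, ∀ z ∈ U i, e z = F i z) → (∀ z, (∀ i, z ∉ U i) → e z = z) → ∀ z, z ≤ e z := by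
    intro U F e h1 h2 h3 z
    by_cases h : ∃ i, z ∈ U i
    · obtain ⟨i, hi⟩ := h
      rw [h2 i z hi]; exact h1 i z
    · rw [h3 z (not_exists.1 h)]
  have eS : e ∈ Sup (⋃ k, Ioo (v0 k) (v1 k))ᶜ := fun z hz => e2 z fun j hj => by
    obtain ⟨k, hk⟩ := mem_iUnion.1 (not_not.1 hz)
    rcases (show k = j ∨ k = j + 1 ∨ k < j ∨ j + 1 < k by omega) with rfl | rfl | h | h
    · linarith [hj.1, hk.2]
    · linarith [hj.2, hk.1]
    · linarith [hj.1, hk.2, mono' h, hv j, hv k, o j, o k]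
    · linarith [hj.2, hk.1, mono' h, hv (j + 1), hv k, o (j + 1), o k]
  have eS' : e' ∈ Sup (⋃ k, Ioo (w0 k) (w1 k)) :=
    fun z hz => e2' z fun j hj => hz (mem_iUnion.2 ⟨j, hj⟩)
  have good : ∀ N : ℕ, Good H ((e'⁻¹ * e⁻¹) ^ N) ((e' * e) ^ N) := fun N => by
    induction N with
    | zero => exact good_one H
    | succ N ih =>
      rw [pow_succ', pow_succ', mul_assoc, mul_assoc]
      exact (ih.step e0 eS (up F3 e1 e2) hH).step e0' eS' (up G3 e1' e2') hH'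
  have m1 : ∀ k, e ((v1 k + w1 k) / 2) = (w0 (k + 1) + v0 (k + 1)) / 2 := fun k => by
    rw [e1 k _ ⟨by linarith [hv k], by linarith [hv k, hv (k + 1), o k, o (k + 1)]⟩, F2]
  have m2 : ∀ k, e' ((w0 k + v0 k) / 2) = (v1 k + w1 k) / 2 := fun k => by
    rw [e1' k _ ⟨by linarith [hv k], by linarith [hv k]⟩, G2]
  have p1 : ∀ (N : ℕ) k, ((e' * e) ^ N) ((v1 k + w1 k) / 2) = (v1 (k + N) + w1 (k + N)) / 2 := by
    intro N k
    induction N with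
    | zero => simp
    | succ N ih => rw [← pw, ih, Perm.mul_apply, m1, m2]; push_cast; rw [add_assoc]
  have p2 : ∀ (N : ℕ) k, ((e'⁻¹ * e⁻¹) ^ N) ((w0 k + v0 k) / 2) =
      (w0 (k - N) + v0 (k - N)) / 2 := by
    intro N k
    induction N with
    | zero => simp
    | succ N ih =>
      rw [← pw, ih, show k - N = k - (N + 1 : ℕ) + 1 by push_cast; ring, ← m1, ← m2,
        Perm.mul_apply, ia, ia]
  obtain ⟨g1, g2, -, g4⟩ := good (2 * n + 3)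
  refine g4 _ (hs n) fun t => ?_
  obtain ⟨k, k1, k2⟩ := D.loc hf t
  constructor
  · obtain ⟨j, j1, j2, j3⟩ : ∃ j : ℤ, n ≤ j.natAbs ∧ j + 1 ≤ k ∧ k - 2 * n - 1 ≤ j := by
      by_cases h : n ≤ (k - 1).natAbs
      · exact ⟨k - 1, h, by omega, by omega⟩
      · exact ⟨-n, by omega, by omega, by omega⟩
    have a1 := (le_iff g1).2 (show t ≤ (w0 (k + 1) + v0 (k + 1)) / 2 by
      linarith [o (k + 1), hv (k + 1)])
    rw [p2] at a1
    have a2 := (le_iff (hs n)).2 ((D.mono hf j2).trans k1)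
    have a3 := mono' (show k + 1 - (2 * n + 3 : ℕ) < j by omega)
    linarith [(D.far j n j1).2, o j, o (k + 1 - (2 * n + 3 : ℕ)), hv (k + 1 - (2 * n + 3 : ℕ))]
  · obtain ⟨j, j1, j2, j3⟩ : ∃ j : ℤ, n ≤ j.natAbs ∧ k + 1 ≤ j ∧ j ≤ k + 2 * n + 1 := by
      by_cases h : n ≤ (k + 1).natAbs
      · exact ⟨k + 1, h, by omega, by omega⟩
      · exact ⟨n, by omega, by omega, by omega⟩
    have a1 := (le_iff g2).2 (show (v1 (k - 1) + w1 (k - 1)) / 2 ≤ t by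
      linarith [o (k - 1), hv (k - 1), mono' (show k - 1 < k by omega)])
    rw [p1] at a1
    have a2 := (le_iff (hs n)).2 (show t ≤ o1 j by linarith [D.mono hf j2, o j])
    have a3 := mono' (show j < k - 1 + (2 * n + 3 : ℕ) by omega)
    linarith [(D.far j n j1).1, o (k - 1 + (2 * n + 3 : ℕ)), hv (k - 1 + (2 * n + 3 : ℕ))]

end Pool.Agent.Lib.MP_a2d0bb_al.FG
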