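import Pool.Agent.Lib.MP_a2d0bb_al.Glue

/-!
Increasing permutations of the line: lattice operations, splicing, gluing, clamping.
-/

set_option autoImplicit false

open Equiv Set

namespace Pool.Agent.Lib.MP_a2d0bb_al.FG

/-- The increasing permutations of the line. -/
def Aut : Subgroup (Perm ℝ) where
  carrier := {f | StrictMono f}
  one_mem' := strictMono_id
  mul_mem' := fun hf hg _ _ h => hf (hg h)
  inv_mem' := fun {f} hf a b h => (StrictMono.lt_iff_lt hf).1 (by simpa using h)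

theorem ai {X : Type*} (f : Perm X) (z : X) : f (f⁻¹ z) = z := by simp

theorem ia {X : Type*} (f : Perm X) (z : X) : f⁻¹ (f z) = z := by simp

variable {φ ψ : Perm ℝ}

theorem lt_iff (h : φ ∈ Aut) {a b : ℝ} : φ a < φ b ↔ a < b := StrictMono.lt_iff_lt h

theorem le_iff (h : φ ∈ Aut) {a b : ℝ} : φ a ≤ φ b ↔ a ≤ b := StrictMono.le_iff_le h

theorem inv_lt (h : φ ∈ Aut) {a b : ℝ} : φ⁻¹ a < b ↔ a < φ b := by
  rw [← lt_iff h]; simp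

theorem lt_inv (h : φ ∈ Aut) {a b : ℝ} : a < φ⁻¹ b ↔ φ a < b := by
  rw [← lt_iff h]; simp

theorem inv_le (h : φ ∈ Aut) {a b : ℝ} : φ⁻¹ a ≤ b ↔ a ≤ φ b := by
  rw [← le_iff h]; simp

theorem le_inv (h : φ ∈ Aut) {a b : ℝ} : a ≤ φ⁻¹ b ↔ φ a ≤ b := by
  rw [← le_iff h]; simp

theorem mk_aut (u : ℝ → ℝ) (h : StrictMono u) (hs : Function.Surjective u) :
    ∃ χ ∈ Aut, ∀ t, χ t = u t :=
  ⟨Equiv.ofBijective u ⟨h.injective, hs⟩, h, fun _ => rfl⟩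

theorem ex_max (hφ : φ ∈ Aut) (hψ : ψ ∈ Aut) : ∃ χ ∈ Aut, ∀ t, χ t = max (φ t) (ψ t) := by
  refine mk_aut _ (fun a b h => max_lt_max (hφ h) (hψ h)) fun w => ?_
  rcases le_total (φ⁻¹ w) (ψ⁻¹ w) with h | h
  · exact ⟨φ⁻¹ w, by simpa using (le_inv hψ).1 h⟩
  · exact ⟨ψ⁻¹ w, by simpa using (le_inv hφ).1 h⟩

theorem ex_min (hφ : φ ∈ Aut) (hψ : ψ ∈ Aut) : ∃ χ ∈ Aut, ∀ t, χ t = min (φ t) (ψ t) := by
  refine mk_aut _ (fun a b h => min_lt_min (hφ h) (hψ h)) fun w => ?_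
  rcases le_total (φ⁻¹ w) (ψ⁻¹ w) with h | h
  · exact ⟨ψ⁻¹ w, by simpa using (inv_le hφ).1 h⟩
  · exact ⟨φ⁻¹ w, by simpa using (inv_le hψ).1 h⟩

theorem ex_cut (hφ : φ ∈ Aut) (hψ : ψ ∈ Aut) {s : ℝ} (h : φ s = ψ s) :
    ∃ χ ∈ Aut, (∀ t ≤ s, χ t = φ t) ∧ ∀ t, s ≤ t → χ t = ψ t := by
  obtain ⟨χ, hχ, e⟩ := mk_aut (fun t => if t ≤ s then φ t else ψ t) (fun a b hab => by
      by_cases ha : a ≤ s <;> by_cases hb : b ≤ s <;> simp only [ha, hb, if_true, if_false]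
      · exact hφ hab
      · exact ((le_iff hφ).2 ha).trans_lt (h ▸ hψ (not_le.1 hb))
      · exact (ha (hab.le.trans hb)).elim
      · exact hψ hab) (fun w => by
      by_cases hw : w ≤ φ s
      · exact ⟨φ⁻¹ w, by dsimp only; rw [if_pos ((inv_le hφ).2 hw), ai]⟩
      · exact ⟨ψ⁻¹ w, by
          dsimp only; rw [if_neg fun h1 => hw (h ▸ (inv_le hψ).1 h1), ai]⟩)
  refine ⟨χ, hχ, fun t ht => by rw [e, if_pos ht], fun t ht => ?_⟩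
  rw [e]
  split_ifs with h1
  · rw [le_antisymm h1 ht, h]
  · rfl

theorem ex_aff {s t s' t' : ℝ} (h : s < t) (h' : s' < t') : ∃ L ∈ Aut, L s = s' ∧ L t = t' := by
  have h1 : 0 < t - s := by linarith
  have h2 : 0 < (t' - s') / (t - s) := div_pos (by linarith) h1
  obtain ⟨L, hL, e⟩ := mk_aut (fun z => s' + (t' - s') / (t - s) * (z - s))
    (fun a b hab => by dsimp only; nlinarith)
    (fun w => ⟨s + (w - s') / ((t' - s') / (t - s)), by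
      dsimp only
      rw [add_sub_cancel_left, mul_div_cancel₀ _ h2.ne']; ring⟩)
  refine ⟨L, hL, by simp [e], ?_⟩
  rw [e, div_mul_cancel₀ _ h1.ne']; ring

theorem splice (hφ : φ ∈ Aut) (hψ : ψ ∈ Aut) {s t : ℝ} (h : s < t) (h' : φ s < ψ t) :
    ∃ χ ∈ Aut, (∀ z ≤ s, χ z = φ z) ∧ ∀ z, t ≤ z → χ z = ψ z := by
  obtain ⟨L, hL, e1, e2⟩ := ex_aff h h'
  obtain ⟨χ₁, h1, a1, a2⟩ := ex_cut hL hψ e2
  obtain ⟨χ, h2, b1, b2⟩ := ex_cut hφ h1 (show φ s = χ₁ s by rw [a1 s h.le, e1])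
  exact ⟨χ, h2, b1, fun z hz => by rw [b2 z (h.le.trans hz), a2 z hz]⟩

theorem chain {ω : Perm ℝ} (hω : ω ∈ Aut) (e : ℝ) (L : List (Perm ℝ × ℝ × ℝ)) :
    ∀ p : Perm ℝ × ℝ × ℝ, p.1 ∈ Aut → (∀ r ∈ L, r.1 ∈ Aut ∧ r.2.1 ≤ r.2.2) →
    List.IsChain (fun p r : Perm ℝ × ℝ × ℝ => p.2.2 < r.2.1 ∧ p.1 p.2.2 < r.1 r.2.1)
      (p :: (L ++ [(ω, e, e)])) →
    ∃ χ ∈ Aut, (∀ z ≤ p.2.2, χ z = p.1 z) ∧
      (∀ r ∈ L, p.2.2 < r.2.1 ∧ ∀ z, r.2.1 ≤ z → z ≤ r.2.2 → χ z = r.1 z) ∧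
      p.2.2 < e ∧ ∀ z, e ≤ z → χ z = ω z := by
  induction L with
  | nil =>
    intro p hp _ h
    simp only [List.nil_append, List.isChain_cons_cons] at h
    obtain ⟨χ, h1, h2, h3⟩ := splice hp hω h.1.1 h.1.2
    exact ⟨χ, h1, h2, by simp, h.1.1, h3⟩
  | cons r L ih =>
    intro p hp hL h
    simp only [List.cons_append, List.isChain_cons_cons] at h
    have hr := hL r List.mem_cons_self
    obtain ⟨χ', a0, a1, a2, a3, a4⟩ := ih r hr.1 (fun r' h' => hL r' (List.mem_cons_of_mem _ h')) h.2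
    obtain ⟨χ, h1, h2, h3⟩ := splice hp a0 h.1.1 (by rw [a1 _ hr.2]; exact h.1.2)
    refine ⟨χ, h1, h2, fun r' hr' => ?_, by linarith [h.1.1, hr.2],
      fun z hz => by rw [h3 z (by linarith [hr.2]), a4 z hz]⟩
    rcases List.mem_cons.1 hr' with rfl | hr'
    · exact ⟨h.1.1, fun z z1 z2 => by rw [h3 z z1, a1 z z2]⟩
    · have := (a2 r' hr').1
      exact ⟨by linarith [h.1.1, hr.2], fun z z1 z2 => by
        rw [h3 z (by linarith [hr.2]), (a2 r' hr').2 z z1 z2]⟩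

theorem sup_Ioo {χ : Perm ℝ} {a b : ℝ} (h1 : ∀ z ≤ a, χ z = z) (h2 : ∀ z, b ≤ z → χ z = z) :
    χ ∈ Sup (Ioo a b) := fun z hz => by
  by_cases h : z ≤ a
  · exact h1 z h
  · exact h2 z (not_lt.1 fun h' => hz ⟨not_le.1 h, h'⟩)

theorem bump {a s t b : ℝ} (h1 : a < s) (h2 : s < t) (h3 : t < b) :
    ∃ χ ∈ Aut, χ ∈ Sup (Ioo a b) ∧ χ s = t ∧ ∀ z, z ≤ χ z := by
  obtain ⟨L, hL, e1, e2⟩ := ex_aff h1 (h1.trans h2)
  obtain ⟨L', hL', e3, e4⟩ := ex_aff (h2.trans h3) h3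
  obtain ⟨χ₁, a0, a1, a2⟩ := ex_cut hL' (one_mem Aut) (s := b) e4
  obtain ⟨χ₂, b0, b1, b2⟩ := ex_cut hL a0 (s := s) (by rw [a1 s (h2.trans h3).le, e2, e3])
  obtain ⟨χ₃, c0, c1, c2⟩ := ex_cut (one_mem Aut) b0 (s := a) (by rw [b1 a h1.le, e1]; rfl)
  obtain ⟨χ, d0, d1⟩ := ex_max c0 (one_mem Aut)
  refine ⟨χ, d0, sup_Ioo (fun z hz => ?_) fun z hz => ?_, ?_, fun z => ?_⟩
  · rw [d1, c1 z hz]; simp
  · rw [d1, c2 z (by linarith), b2 z (by linarith), a2 z hz]; simp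
  · rw [d1, c2 s h1.le, b1 s le_rfl, e2]; simpa using h2.le
  · rw [d1]; exact le_max_right _ _

theorem glue {I : Type*} {U : I → Set ℝ} {F : I → Perm ℝ} (hU : Dj U)
    (hF : ∀ i, F i ∈ Sup (U i)) (hA : ∀ i, F i ∈ Aut) :
    ∃ g ∈ Aut, (∀ i, ∀ z ∈ U i, g z = F i z) ∧ ∀ z, (∀ i, z ∉ U i) → g z = z := by
  obtain ⟨g, hg⟩ := ex_pr hU hF
  have h1 : ∀ i, ∀ z ∈ U i, g z = F i z := fun i z hz => hg.on hU hF hz
  have h2 : ∀ z, (∀ i, z ∉ U i) → g z = z := fun z hz => (hg z).2 fun i => hF i z (hz i)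
  refine ⟨g, fun s t hst => ?_, h1, h2⟩
  by_cases hs : ∃ i, s ∈ U i <;> by_cases ht : ∃ j, t ∈ U j
  · obtain ⟨i, hi⟩ := hs
    obtain ⟨j, hj⟩ := ht
    by_cases hij : i = j
    · subst hij
      rw [h1 i s hi, h1 i t hj]
      exact hA i hst
    · have e1 : F i t = t := hF i t fun h => hij (hU i j t h hj)
      have e2 : F j (F i s) = F i s := hF j _ fun h => hij (hU i j _ (sup_map (hF i) hi) h)
      rw [h1 i s hi, h1 j t hj, ← e2]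
      exact hA j (e1 ▸ hA i hst)
  · obtain ⟨i, hi⟩ := hs
    rw [h1 i s hi, h2 t (not_exists.1 ht), ← hF i t (not_exists.1 ht i)]
    exact hA i hst
  · obtain ⟨j, hj⟩ := ht
    rw [h1 j t hj, h2 s (not_exists.1 hs), ← hF j s (not_exists.1 hs j)]
    exact hA j hst
  · rw [h2 s (not_exists.1 hs), h2 t (not_exists.1 ht)]
    exact hst

/-- Every increasing permutation between `l` and `u` lies in `H`. -/
def Good (H : Subgroup (Perm ℝ)) (l u : Perm ℝ) : Prop :=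
  l ∈ Aut ∧ u ∈ Aut ∧ (∀ t, l t ≤ u t) ∧ ∀ s ∈ Aut, (∀ t, l t ≤ s t ∧ s t ≤ u t) → s ∈ H

theorem good_one (H : Subgroup (Perm ℝ)) : Good H 1 1 :=
  ⟨one_mem _, one_mem _, fun _ => le_rfl, fun s _ h => by
    rw [show s = 1 from Equiv.ext fun t => le_antisymm (h t).2 (h t).1]
    exact one_mem _⟩

theorem Good.step {H : Subgroup (Perm ℝ)} {l u e : Perm ℝ} {U : Set ℝ} (h : Good H l u)
    (he : e ∈ Aut) (hU : e ∈ Sup U) (h1 : ∀ z, z ≤ e z) (hH : ∀ s ∈ Aut, s ∈ Sup U → s ∈ H) :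
    Good H (e⁻¹ * l) (e * u) := by
  obtain ⟨hl, hu, hlu, hs⟩ := h
  refine ⟨mul_mem (inv_mem he) hl, mul_mem he hu, fun t => ?_, fun s hsA hb => ?_⟩
  · exact ((inv_le he).2 (h1 _)).trans ((hlu t).trans (h1 _))
  obtain ⟨m, m0, m1⟩ := ex_min hsA hu
  obtain ⟨c, c0, c1⟩ := ex_max hl m0
  have hc : c ∈ H := hs c c0 fun t => by
    rw [c1, m1]
    exact ⟨le_max_left _ _, max_le (hlu t) (min_le_right _ _)⟩
  have hd : s * c⁻¹ ∈ H := hH _ (mul_mem hsA (inv_mem c0)) fun z hz => by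
    obtain ⟨t, rfl⟩ := c.surjective z
    have b1 : e⁻¹ (l t) ≤ s t := (hb t).1
    have b2 : s t ≤ e (u t) := (hb t).2
    rw [Perm.mul_apply, ia]
    rw [c1, m1] at hz ⊢
    rcases le_total (s t) (u t) with h2 | h2
    · rw [min_eq_left h2] at hz ⊢
      rcases le_total (l t) (s t) with h3 | h3
      · rw [max_eq_right h3]
      · rw [max_eq_left h3] at hz ⊢
        rw [inv_mem hU _ hz] at b1
        exact le_antisymm h3 b1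
    · rw [min_eq_right h2, max_eq_right (hlu t)] at hz ⊢
      rw [hU _ hz] at b2
      exact le_antisymm b2 h2
  simpa using mul_mem hd hc

/-- The contraction on one block. -/
theorem block (hφ : φ ∈ Aut) {q q1 r1 v0 v1 d r0 q0 q' : ℝ} (hd : 0 < d) (hv : v1 = v0 + 7 * d)
    (a1 : q < q1) (a2 : q1 < r1) (a3 : r1 < φ⁻¹ (φ⁻¹ v0)) (a4 : v1 < φ v0)
    (a5 : φ (φ v1) < r0) (a6 : r0 < q0) (a7 : q0 < q') :
    ∃ x ∈ Aut, x ∈ Sup (Ioo q q') ∧ x v0 = v0 + 3 * d ∧ x v1 = v0 + 4 * d ∧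
      (∀ z, v0 ≤ z → z ≤ v1 → x (φ (φ z)) = φ (x z) ∧ x (φ⁻¹ (φ⁻¹ z)) = φ⁻¹ (x z)) ∧
      r1 < x q1 ∧ x q0 < r0 ∧ x (x q1) = v0 + d ∧ x (x r1) = v0 + 2 * d ∧
      x (x r0) = v0 + 5 * d ∧ x (x q0) = v0 + 6 * d := by
  have hi := inv_mem hφ
  have h01 : v0 < v1 := by linarith
  have b1 : φ⁻¹ v1 < v0 := (inv_lt hφ).2 a4
  have b2 : φ⁻¹ (φ⁻¹ v1) < φ⁻¹ v0 := hi b1
  have b3 : φ⁻¹ (φ⁻¹ v0) < φ⁻¹ (φ⁻¹ v1) := hi (hi h01)
  have b4 : φ⁻¹ v0 < φ⁻¹ v1 := hi h01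
  have b5 : φ v1 < φ (φ v0) := hφ a4
  have b6 : φ (φ v0) < φ (φ v1) := hφ (hφ h01)
  have b7 : φ v0 < φ v1 := hφ h01
  obtain ⟨j0, j01, j02⟩ := exists_between b2
  obtain ⟨j1, j11, j12⟩ := exists_between j02
  obtain ⟨k0, k01, k02⟩ := exists_between b5
  obtain ⟨k1, k11, k12⟩ := exists_between k02
  obtain ⟨y, hy, y0, y1⟩ := ex_aff h01 (show v0 + 3 * d < v0 + 4 * d by linarith)
  obtain ⟨L1, hL1, e10, e11⟩ := ex_aff a2 j11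
  obtain ⟨L3, hL3, e30, e31⟩ := ex_aff j11 (show v0 + d < v0 + 2 * d by linarith)
  obtain ⟨L5, hL5, e50, e51⟩ := ex_aff k11 (show v0 + 5 * d < v0 + 6 * d by linarith)
  obtain ⟨L7, hL7, e70, e71⟩ := ex_aff a6 k11
  have c1 : φ⁻¹ v0 < φ⁻¹ (v0 + 3 * d) := hi (by linarith)
  have c2 : φ⁻¹ (v0 + 4 * d) < φ⁻¹ v1 := hi (by linarith)
  have c3 : φ v0 < φ (v0 + 3 * d) := hφ (by linarith)
  have c4 : φ (v0 + 4 * d) < φ v1 := hφ (by linarith)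
  obtain ⟨x, hx, p0, p1, -, p2⟩ := chain (one_mem Aut) q'
    [(L1, q1, r1), (φ⁻¹ * y * φ * φ, φ⁻¹ (φ⁻¹ v0), φ⁻¹ (φ⁻¹ v1)), (L3, j0, j1), (y, v0, v1),
      (L5, k0, k1), (φ * y * φ⁻¹ * φ⁻¹, φ (φ v0), φ (φ v1)), (L7, r0, q0)] (1, q, q) (one_mem _)
    (by
      simp only [List.forall_mem_cons, List.not_mem_nil, false_imp_iff, implies_true, and_true]
      exact ⟨⟨hL1, a2.le⟩, ⟨mul_mem (mul_mem (mul_mem hi hy) hφ) hφ, b3.le⟩, ⟨hL3, j11.le⟩,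
        ⟨hy, h01.le⟩, ⟨hL5, k11.le⟩, ⟨mul_mem (mul_mem (mul_mem hφ hy) hi) hi, b6.le⟩,
        hL7, a6.le⟩)
    (by
      simp only [List.cons_append, List.nil_append, List.isChain_cons_cons, List.isChain_singleton,
        Perm.mul_apply, ai, ia, Perm.one_apply, y0, y1, e10, e11,
        e30, e31, e50, e51, e70, e71, and_true]
      refine ⟨⟨?_, ?_⟩, ⟨?_, ?_⟩, ⟨?_, ?_⟩, ⟨?_, ?_⟩, ⟨?_, ?_⟩, ⟨?_, ?_⟩, ⟨?_, ?_⟩, ?_, ?_⟩ <;>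
        linarith)
  simp only [List.forall_mem_cons, List.not_mem_nil, false_imp_iff, implies_true, and_true,
    Perm.mul_apply] at p1
  obtain ⟨⟨-, s1⟩, ⟨-, s2⟩, ⟨-, s3⟩, ⟨-, s4⟩, ⟨-, s5⟩, ⟨-, s6⟩, -, s7⟩ := p1
  have t1 : x q1 = j0 := by rw [s1 _ le_rfl a2.le, e10]
  have t2 : x r1 = j1 := by rw [s1 _ a2.le le_rfl, e11]
  have t3 : x r0 = k0 := by rw [s7 _ le_rfl a6.le, e70]
  have t4 : x q0 = k1 := by rw [s7 _ a6.le le_rfl, e71]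
  refine ⟨x, hx, sup_Ioo p0 p2, by rw [s4 _ le_rfl h01.le, y0], by rw [s4 _ h01.le le_rfl, y1],
    fun z z0 z1 => ⟨?_, ?_⟩, by linarith, by linarith, by rw [t1, s3 _ le_rfl j11.le, e30],
    by rw [t2, s3 _ j11.le le_rfl, e31], by rw [t3, s5 _ le_rfl k11.le, e50],
    by rw [t4, s5 _ k11.le le_rfl, e51]⟩
  · rw [s6 _ ((le_iff hφ).2 ((le_iff hφ).2 z0)) ((le_iff hφ).2 ((le_iff hφ).2 z1)), s4 z z0 z1]
    simp
  · rw [s2 _ ((le_iff hi).2 ((le_iff hi).2 z0)) ((le_iff hi).2 ((le_iff hi).2 z1)), s4 z z0 z1]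
    simp

end Pool.Agent.Lib.MP_a2d0bb_al.FG
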